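import Pool.Agent.H59.CFL.Targets

/-!
# MP_b11560_gt, rows CIR and MON of the board `cfl_modules`
-/

set_option autoImplicit false

open MeasureTheory Filter Topology Set
open scoped UpperHalfPlane MatrixGroups

namespace Pool.Agent.H8.CFL

open Pool.Agent.H61.SF (IsFlow)
open Pool.Agent.H59.CFL

/-- the clamp function -/
noncomputable def cl (η x : ℝ) : ℝ := max 0 (min 1 ((x + η / 2) / η))

theorem cl_cont (η : ℝ) : Continuous (cl η) := by
  unfold cl
  fun_prop

theorem cl_mono {η : ℝ} (hη : 0 < η) : Monotone (cl η) := by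
  intro x y hxy
  unfold cl
  apply max_le_max le_rfl
  apply min_le_min le_rfl
  gcongr

theorem cl_zero {η x : ℝ} (hη : 0 < η) (hx : η / 2 < |x|) :
    ((cl η x : ℝ) : AddCircle (1 : ℝ)) = 0 := by
  rcases lt_abs.1 hx with h | h
  · have h1 : cl η x = 1 := by
      unfold cl
      rw [min_eq_left, max_eq_right zero_le_one]
      rw [one_le_div hη]
      linarith
    rw [h1]
    exact AddCircle.coe_period 1
  · have h1 : cl η x = 0 := by
      unfold cl
      rw [max_eq_left]
      apply le_trans (min_le_right _ _)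
      apply div_nonpos_of_nonpos_of_nonneg _ hη.le
      linarith
    rw [h1]
    rfl

theorem cl_mid {η x : ℝ} (hη : 0 < η) (hx : |x| ≤ η / 2) : cl η x = (x + η / 2) / η := by
  rw [abs_le] at hx
  unfold cl
  rw [min_eq_right, max_eq_right]
  · apply div_nonneg _ hη.le
    linarith
  · rw [div_le_one hη]
    linarith

theorem pf_CIR : T_CIR := by
  classical
  intro S _ ψ V r η hT
  have hη := hT.pos
  set U : S → AddCircle (1 : ℝ) := fun y => if y ∈ V then ((cl η (r y) : ℝ) : AddCircle (1 : ℝ))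
    else 0 with hU
  have hUV : ∀ y ∈ V, U y = ((cl η (r y) : ℝ) : AddCircle (1 : ℝ)) := fun y hy => if_pos hy
  have hUn : ∀ y, y ∉ V → U y = 0 := fun y hy => if_neg hy
  refine ⟨U, ?_, hUV, hUn⟩
  have hC := hT.closed (3 * η / 4) (by linarith)
  have hC0 : ∀ y ∈ {y | y ∈ V ∧ |r y| ≤ 3 * η / 4}ᶜ, U y = 0 := by
    intro y hy
    by_cases hyV : y ∈ V
    · rw [hUV y hyV]
      apply cl_zero hη
      have : ¬ |r y| ≤ 3 * η / 4 := fun h => hy ⟨hyV, h⟩
      linarith
    · exact hUn y hyV
  rw [continuous_iff_continuousAt]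
  intro y
  by_cases hyV : y ∈ V
  · have h1 : ContinuousAt (fun y => ((cl η (r y) : ℝ) : AddCircle (1 : ℝ))) y := by
      have h2 : ContinuousAt r y := hT.cont.continuousAt (hT.isOpen.mem_nhds hyV)
      exact (AddCircle.isCoveringMap_coe (1 : ℝ)).continuous.continuousAt.comp ((cl_cont η).continuousAt.comp h2)
    refine h1.congr ?_
    filter_upwards [hT.isOpen.mem_nhds hyV] with z hz
    exact (hUV z hz).symm
  · have h1 : ContinuousAt (fun _ : S => (0 : AddCircle (1 : ℝ))) y := continuousAt_const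
    refine h1.congr ?_
    have h2 : y ∈ {y | y ∈ V ∧ |r y| ≤ 3 * η / 4}ᶜ := fun h => hyV h.1
    filter_upwards [hC.isOpen_compl.mem_nhds h2] with z hz
    exact (hC0 z hz).symm

/-- a real function with integer values up to a circle valued function -/
theorem loc_const {D : ℝ → ℝ} {x : ℝ} (hD : ContinuousAt D x)
    (h : ∀ᶠ t in 𝓝 x, ((D t : ℝ) : AddCircle (1 : ℝ)) = ((D x : ℝ) : AddCircle (1 : ℝ))) :
    ∀ᶠ t in 𝓝 x, D t = D x := by
  have h1 : ∀ᶠ t in 𝓝 x, |D t - D x| < 1 := by
    have := Metric.continuousAt_iff'.1 hD 1 one_pos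
    filter_upwards [this] with t ht
    rwa [Real.dist_eq] at ht
  filter_upwards [h, h1] with t h2 h3
  have h4 : ((D t - D x : ℝ) : AddCircle (1 : ℝ)) = 0 := by
    rw [AddCircle.coe_sub, h2, sub_self]
  rw [AddCircle.coe_eq_zero_iff] at h4
  obtain ⟨n, hn⟩ := h4
  rw [zsmul_eq_mul, mul_one] at hn
  rw [← hn] at h3
  have h5 : |n| < 1 := by exact_mod_cast h3
  have h6 : n = 0 := Int.abs_lt_one_iff.1 h5
  rw [h6] at hn
  have : (0 : ℝ) = D t - D x := by
    rw [← hn]
    simp
  linarith

theorem pf_MON : T_MON := by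
  intro S X _ _ ψ φ p hψ hφ hp hpe V r η hT U hUc hUV hUn u hu huU
  have hη := hT.pos
  have hC := hT.closed (3 * η / 4) (by linarith)
  have hUV' : ∀ y ∈ V, U y = ((cl η (r y) : ℝ) : AddCircle (1 : ℝ)) := hUV
  have hC0 : ∀ y ∈ {y | y ∈ V ∧ |r y| ≤ 3 * η / 4}ᶜ, U y = 0 := by
    intro y hy
    by_cases hyV : y ∈ V
    · rw [hUV' y hyV]
      apply cl_zero hη
      have : ¬ |r y| ≤ 3 * η / 4 := fun h => hy ⟨hyV, h⟩
      linarith
    · exact hUn y hyV
  have hwc : ∀ z, Continuous fun t => u (φ t z) := fun z =>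
    hu.comp (hφ.cont.comp (Continuous.prodMk_left z))
  -- near a point of `V`
  have hV : ∀ z (x : ℝ), p (φ x z) ∈ V → ∀ᶠ t in 𝓝 x,
      u (φ t z) - u (φ x z) = cl η (r (p (φ x z)) + (t - x)) - cl η (r (p (φ x z))) := by
    intro z x hV
    set y0 := p (φ x z) with hy0
    have hlt := hT.lt y0 hV
    have hnear : ∀ᶠ t in 𝓝 x, |r y0 + (t - x)| < η := by
      have h1 : ContinuousAt (fun t : ℝ => |r y0 + (t - x)|) x := by fun_prop
      apply h1.eventually_lt_const
      show |r y0 + (x - x)| < η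
      rw [sub_self, add_zero]
      exact hlt
    have hD : ContinuousAt (fun t => u (φ t z) - cl η (r y0 + (t - x))) x := by
      refine (hwc z).continuousAt.sub ?_
      have h1 : Continuous fun t : ℝ => cl η (r y0 + (t - x)) := (cl_cont η).comp (by fun_prop)
      exact h1.continuousAt
    have hval : ∀ t : ℝ, |r y0 + (t - x)| < η →
        ((u (φ t z) - cl η (r y0 + (t - x)) : ℝ) : AddCircle (1 : ℝ)) = 0 := by
      intro t ht
      obtain ⟨h1, h2⟩ := hT.move y0 hV (t - x) ht
      have h3 : p (φ t z) = ψ (t - x) y0 := by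
        rw [hy0, hpe, ← hφ.add, sub_add_cancel]
      rw [AddCircle.coe_sub, huU, h3, hUV' _ h1, h2, sub_self]
    have hloc := loc_const hD (by
      filter_upwards [hnear] with t ht
      rw [hval t ht, hval x (by rw [sub_self, add_zero]; exact hlt)])
    filter_upwards [hloc] with t ht
    rw [sub_self, add_zero] at ht
    linarith
  have hright : ∀ z (x : ℝ), ∀ᶠ t in 𝓝 x, x ≤ t → u (φ x z) ≤ u (φ t z) := by
    intro z x
    by_cases hxV : p (φ x z) ∈ V
    · filter_upwards [hV z x hxV] with t ht hxt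
      have h1 := cl_mono hη (show r (p (φ x z)) ≤ r (p (φ x z)) + (t - x) by linarith)
      linarith
    · have hy : p (φ x z) ∈ {y | y ∈ V ∧ |r y| ≤ 3 * η / 4}ᶜ := fun h => hxV h.1
      have hcont : ContinuousAt (fun t => p (φ t z)) x :=
        (hp.comp (hφ.cont.comp (Continuous.prodMk_left z))).continuousAt
      have hev := hcont.eventually_mem (hC.isOpen_compl.mem_nhds hy)
      have hloc := loc_const (D := fun t => u (φ t z)) (hwc z).continuousAt (by
        filter_upwards [hev] with t ht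
        rw [huU, huU, hC0 _ ht, hC0 _ hy])
      filter_upwards [hloc] with t ht _
      exact ht.ge
  have hmono : ∀ z, Monotone fun t => u (φ t z) := by
    intro z a b hab
    have hs : IsClosed ({t | u (φ a z) ≤ u (φ t z)} ∩ Icc a b) :=
      (isClosed_le continuous_const (hwc z)).inter isClosed_Icc
    have h1 := hs.Icc_subset_of_forall_mem_nhdsWithin (a := a) (b := b) (le_refl (u (φ a z))) (by
      rintro x ⟨hx, -⟩
      have h2 := (hright z x).filter_mono (nhdsWithin_le_nhds (s := Ioi x))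
      filter_upwards [h2, self_mem_nhdsWithin] with t ht hxt
      exact le_trans hx (ht (le_of_lt hxt)))
    exact h1 (right_mem_Icc.2 hab)
  refine ⟨hmono, ?_⟩
  intro z hz hr t ht
  have hz0 : φ 0 z = z := hφ.zero z
  have h1 := hV z 0 (by rw [hz0]; exact hz)
  rw [hz0] at h1
  have h2 : ∀ᶠ s in 𝓝 (0 : ℝ), |r (p z) + (s - 0)| < η / 2 := by
    have h3 : ContinuousAt (fun s : ℝ => |r (p z) + (s - 0)|) 0 := by fun_prop
    apply h3.eventually_lt_const
    show |r (p z) + ((0 : ℝ) - 0)| < η / 2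
    rw [sub_self, add_zero]
    exact hr
  have h3 : ∀ᶠ s in 𝓝 (0 : ℝ), s < t := eventually_lt_nhds ht
  have h4 := ((h1.and (h2.and h3)).filter_mono (nhdsWithin_le_nhds (s := Ioi (0 : ℝ)))).and
    self_mem_nhdsWithin
  obtain ⟨s, ⟨h5, h6, h7⟩, h8⟩ := h4.exists
  have h8' : 0 < s := h8
  rw [cl_mid hη h6.le, cl_mid hη hr.le] at h5
  have h9 : 0 < (r (p z) + (s - 0) + η / 2) / η - (r (p z) + η / 2) / η := by
    rw [← sub_div]
    apply div_pos _ hη
    linarith
  have h10 := hmono z h7.le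
  simp only at h10
  linarith

end Pool.Agent.H8.CFL
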