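import Pool.Agent.H59.CFL.Targets

/-!
# MP_b11560_gt, rows LFT, LLP and CHN of the board `cfl_modules`
-/

set_option autoImplicit false

open MeasureTheory Filter Topology Set
open scoped UpperHalfPlane MatrixGroups

namespace Pool.Agent.H8.CFL

open Pool.Agent.H61.SF (IsFlow)
open Pool.Agent.H59.CFL

theorem proj_smul (Γ : Subgroup SL(2, ℝ)) (g : Γ) (z : ℍ) : proj Γ (g • z) = proj Γ z :=
  Quotient.sound ⟨g, rfl⟩

theorem proj_cont (Γ : Subgroup SL(2, ℝ)) : Continuous (proj Γ) := continuous_quotient_mk'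

theorem dist_g (Γ : Subgroup SL(2, ℝ)) (g : Γ) (z w : ℍ) : dist (g • z) (g • w) = dist z w :=
  dist_smul (g : SL(2, ℝ)) z w

theorem pf_LLP : T_LLP := by
  intro Γ hΓ u hu hc
  obtain ⟨K, hK, hcov⟩ := hΓ.cocompact
  obtain ⟨B, hB⟩ := (hK.cthickening (r := 1)).exists_bound_of_continuousOn hu.continuousOn
  refine ⟨2 * B, fun z w hzw => ?_⟩
  obtain ⟨g, hg⟩ := hcov z
  obtain ⟨c, hc⟩ := hc g
  have h1 : g • z ∈ Metric.cthickening 1 K := Metric.self_subset_cthickening K hg
  have h2 : g • w ∈ Metric.cthickening 1 K := by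
    refine Metric.mem_cthickening_of_dist_le _ (g • z) 1 K hg ?_
    rw [dist_g, dist_comm]
    exact hzw
  have h3 := hB _ h1
  have h4 := hB _ h2
  rw [hc z, Real.norm_eq_abs] at h3
  rw [hc w, Real.norm_eq_abs] at h4
  calc |u z - u w| = |(u z + c) - (u w + c)| := by
        congr 1
        ring
    _ ≤ |u z + c| + |u w + c| := abs_sub _ _
    _ ≤ 2 * B := by linarith

theorem pf_LFT : T_LFT := by
  intro Γ U hU
  have cov := AddCircle.isCoveringMap_coe (1 : ℝ)
  set f : C(ℍ, AddCircle (1 : ℝ)) := ⟨fun z => U (proj Γ z), hU.comp (proj_cont Γ)⟩ with hf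
  obtain ⟨e₀, he⟩ : ∃ e₀ : ℝ, ((e₀ : ℝ) : AddCircle (1 : ℝ)) = f UpperHalfPlane.I :=
    QuotientAddGroup.mk_surjective _
  obtain ⟨F, ⟨-, hF⟩, -⟩ := cov.existsUnique_continuousMap_lifts f UpperHalfPlane.I e₀ he
  have hF' : ∀ z, ((F z : ℝ) : AddCircle (1 : ℝ)) = U (proj Γ z) := fun z => congrFun hF z
  refine ⟨F, F.continuous, hF', ?_⟩
  intro g
  have hgc : Continuous fun z : ℍ => g • z := by
    have h1 : Continuous fun z : ℍ => (g : SL(2, ℝ)) • z :=
      (isometry_smul ℍ (g : SL(2, ℝ))).continuous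
    exact h1
  have hD : Continuous fun z : ℍ => F (g • z) - F z := (F.continuous.comp hgc).sub F.continuous
  have hint : ∀ z : ℍ, ∃ n : ℤ, (n : ℝ) = F (g • z) - F z := by
    intro z
    have h1 : ((F (g • z) - F z : ℝ) : AddCircle (1 : ℝ)) = 0 := by
      rw [AddCircle.coe_sub, hF', hF', proj_smul, sub_self]
    rw [AddCircle.coe_eq_zero_iff] at h1
    obtain ⟨n, hn⟩ := h1
    refine ⟨n, ?_⟩
    rw [← hn, zsmul_eq_mul, mul_one]
  choose n hn using hint
  have hlc : IsLocallyConstant n := by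
    rw [IsLocallyConstant.iff_eventually_eq]
    intro z
    have h1 := Metric.continuousAt_iff'.1 (hD.continuousAt (x := z)) 1 one_pos
    filter_upwards [h1] with w hw
    rw [← hn, ← hn, Real.dist_eq] at hw
    have h2 : |n w - n z| < 1 := by exact_mod_cast hw
    have h3 := Int.abs_lt_one_iff.1 h2
    omega
  refine ⟨n UpperHalfPlane.I, fun z => ?_⟩
  have h1 : n z = n UpperHalfPlane.I := hlc.apply_eq_of_preconnectedSpace z UpperHalfPlane.I
  rw [← h1, hn]
  ring

/-- subdivision of an isometric line -/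
theorem line_bound {X : Type} [MetricSpace X] (u : X → ℝ) (L : ℝ)
    (h : ∀ z w : X, dist z w ≤ 1 → |u z - u w| ≤ L) (γ : ℝ → X)
    (hγ : ∀ a b, dist (γ a) (γ b) = |a - b|) (a b : ℝ) (hab : a ≤ b) :
    |u (γ a) - u (γ b)| ≤ L * ((b - a) + 1) := by
  have hL : 0 ≤ L := by
    have := h (γ a) (γ a) (by rw [dist_self]; exact zero_le_one)
    exact (abs_nonneg _).trans this
  have key : ∀ k : ℕ, ∀ a b : ℝ, a ≤ b → b - a ≤ k + 1 → |u (γ a) - u (γ b)| ≤ L * (k + 1) := by
    intro k
    induction k with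
    | zero =>
      intro a b hab hb
      rw [Nat.cast_zero, zero_add, mul_one]
      apply h
      rw [hγ, abs_sub_comm, abs_of_nonneg (by linarith)]
      simpa using hb
    | succ k ih =>
      intro a b hab hb
      push_cast at hb ⊢
      rcases le_total (b - a) 1 with h1 | h1
      · have h2 : |u (γ a) - u (γ b)| ≤ L := by
          apply h
          rw [hγ, abs_sub_comm, abs_of_nonneg (by linarith)]
          exact h1
        have h3 : (0 : ℝ) ≤ k := Nat.cast_nonneg k
        nlinarith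
      · have h2 := ih (a + 1) b (by linarith) (by linarith)
        have h3 : |u (γ a) - u (γ (a + 1))| ≤ L := by
          apply h
          rw [hγ]
          rw [show a - (a + 1) = -1 by ring, abs_neg, abs_one]
        calc |u (γ a) - u (γ b)| ≤ |u (γ a) - u (γ (a + 1))| + |u (γ (a + 1)) - u (γ b)| :=
              abs_sub_le _ _ _
          _ ≤ L * (k + 1 + 1) := by linarith
  have h1 := key ⌊b - a⌋₊ a b hab (Nat.lt_floor_add_one _).le
  have h2 : (⌊b - a⌋₊ : ℝ) ≤ b - a := Nat.floor_le (by linarith)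
  refine h1.trans ?_
  apply mul_le_mul_of_nonneg_left _ hL
  linarith

/-- the point `x + i h` -/
noncomputable def upt (x h : ℝ) (hh : 0 < h) : ℍ := UpperHalfPlane.mk ⟨x, h⟩ hh

theorem vert_bound (u : ℍ → ℝ) (L : ℝ) (h : ∀ z w : ℍ, dist z w ≤ 1 → |u z - u w| ≤ L)
    (z : ℍ) (t : ℝ) (ht : z.im ≤ t) (ht0 : 0 < t) :
    |u z - u (upt z.re t ht0)| ≤ L * (Real.log (t / z.im) + 1) := by
  have hz := z.im_pos
  have h1 := line_bound u L h (fun y => UpperHalfPlane.mk ⟨z.re, Real.exp y⟩ (Real.exp_pos y))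
    (fun a b => by
      rw [(UpperHalfPlane.isometry_vertical_line z.re).dist_eq, Real.dist_eq])
    (Real.log z.im) (Real.log t) (Real.log_le_log hz ht)
  have e1 : UpperHalfPlane.mk ⟨z.re, Real.exp (Real.log z.im)⟩ (Real.exp_pos _) = z := by
    apply UpperHalfPlane.ext
    apply Complex.ext
    · rfl
    · show Real.exp (Real.log z.im) = z.im
      exact Real.exp_log hz
  have e2 : UpperHalfPlane.mk ⟨z.re, Real.exp (Real.log t)⟩ (Real.exp_pos _) =
      upt z.re t ht0 := by
    apply UpperHalfPlane.ext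
    apply Complex.ext
    · rfl
    · show Real.exp (Real.log t) = t
      exact Real.exp_log ht0
  simp only [e1, e2] at h1
  rw [Real.log_div ht0.ne' hz.ne']
  exact h1

theorem log_bound (z w : ℍ) (t : ℝ) (ht : t = z.im ∨ t = w.im ∨ (0 < t ∧ t = |z.re - w.re|)) :
    Real.log (t / z.im) ≤ dist z w := by
  have hz := z.im_pos
  have hw := w.im_pos
  have hlog := UpperHalfPlane.dist_log_im_le z w
  rw [Real.dist_eq, abs_le] at hlog
  rcases ht with h | h | ⟨h0, h⟩
  · rw [h, div_self hz.ne', Real.log_one]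
    exact dist_nonneg
  · rw [h, Real.log_div hw.ne' hz.ne']
    linarith
  · rw [Real.log_div h0.ne' hz.ne']
    have h1 : t ≤ dist (z : ℂ) w := by
      rw [h, Complex.dist_eq]
      have := Complex.abs_re_le_norm ((z : ℂ) - w)
      simpa using this
    have h2 := UpperHalfPlane.sinh_half_dist z w
    have hs : 0 < Real.sqrt (z.im * w.im) := Real.sqrt_pos.2 (mul_pos hz hw)
    rw [eq_div_iff (by positivity)] at h2
    have h3 : Real.sinh (dist z w / 2) ≤ Real.exp (dist z w / 2) / 2 := by
      rw [Real.sinh_eq]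
      have := Real.exp_pos (-(dist z w / 2))
      linarith
    have h4 : t ≤ Real.exp (dist z w / 2) * Real.sqrt (z.im * w.im) := by
      calc t ≤ Real.sinh (dist z w / 2) * (2 * Real.sqrt (z.im * w.im)) := by
            rw [h2]
            exact h1
        _ ≤ (Real.exp (dist z w / 2) / 2) * (2 * Real.sqrt (z.im * w.im)) := by gcongr
        _ = _ := by ring
    have h5 := Real.log_le_log h0 h4
    rw [Real.log_mul (Real.exp_pos _).ne' hs.ne', Real.log_exp, Real.log_sqrt (by positivity),
      Real.log_mul hz.ne' hw.ne'] at h5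
    linarith

theorem pf_CHN : T_CHN := by
  intro u L h
  have hL : 0 ≤ L := by
    have := h UpperHalfPlane.I UpperHalfPlane.I (by rw [dist_self]; exact zero_le_one)
    exact (abs_nonneg _).trans this
  refine ⟨3 * L, fun z w => ?_⟩
  have hz := z.im_pos
  have hw := w.im_pos
  obtain ⟨t, ht0, ht1, ht2, ht3, htz, htw⟩ : ∃ t : ℝ, 0 < t ∧ z.im ≤ t ∧ w.im ≤ t ∧
      |z.re - w.re| ≤ t ∧ (t = z.im ∨ t = w.im ∨ (0 < t ∧ t = |z.re - w.re|)) ∧
      (t = w.im ∨ t = z.im ∨ (0 < t ∧ t = |w.re - z.re|)) := by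
    refine ⟨max |z.re - w.re| (max z.im w.im), lt_max_of_lt_right (lt_max_of_lt_left hz),
      (le_max_left _ _).trans (le_max_right _ _), (le_max_right _ _).trans (le_max_right _ _),
      le_max_left _ _, ?_, ?_⟩
    · rcases max_choice |z.re - w.re| (max z.im w.im) with h1 | h1
      · exact Or.inr (Or.inr ⟨lt_max_of_lt_right (lt_max_of_lt_left hz), h1⟩)
      · rcases max_choice z.im w.im with h2 | h2
        · exact Or.inl (h1.trans h2)
        · exact Or.inr (Or.inl (h1.trans h2))
    · rcases max_choice |z.re - w.re| (max z.im w.im) with h1 | h1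
      · refine Or.inr (Or.inr ⟨lt_max_of_lt_right (lt_max_of_lt_left hz), ?_⟩)
        rw [abs_sub_comm w.re z.re]
        exact h1
      · rcases max_choice z.im w.im with h2 | h2
        · exact Or.inr (Or.inl (h1.trans h2))
        · exact Or.inl (h1.trans h2)
  have h1 := vert_bound u L h z t ht1 ht0
  have h2 := vert_bound u L h w t ht2 ht0
  have h3 := log_bound z w t htz
  have h4 := log_bound w z t htw
  rw [dist_comm w z] at h4
  have h5 : |u (upt z.re t ht0) - u (upt w.re t ht0)| ≤ L := by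
    apply h
    refine (UpperHalfPlane.dist_le_dist_coe_div_sqrt _ _).trans ?_
    have e1 : (upt z.re t ht0).im = t := rfl
    have e2 : (upt w.re t ht0).im = t := rfl
    have e3 : dist ((upt z.re t ht0 : ℍ) : ℂ) (upt w.re t ht0) = |z.re - w.re| := by
      rw [Complex.dist_eq]
      have : ((upt z.re t ht0 : ℍ) : ℂ) - (upt w.re t ht0 : ℂ) = ((z.re - w.re : ℝ) : ℂ) := by
        apply Complex.ext
        · show z.re - w.re = _
          simp
        · show t - t = _
          simp
      rw [this, Complex.norm_real, Real.norm_eq_abs]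
    rw [e1, e2, e3, Real.sqrt_mul_self ht0.le, div_le_one ht0]
    exact ht3
  calc |u z - u w| ≤ |u z - u (upt z.re t ht0)| +
        |u (upt z.re t ht0) - u (upt w.re t ht0)| + |u (upt w.re t ht0) - u w| := by
        have a1 := abs_sub_le (u z) (u (upt z.re t ht0)) (u w)
        have a2 := abs_sub_le (u (upt z.re t ht0)) (u (upt w.re t ht0)) (u w)
        linarith
    _ ≤ L * (dist z w + 1) + L + L * (dist z w + 1) := by
        have b1 : L * (Real.log (t / z.im) + 1) ≤ L * (dist z w + 1) := by gcongr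
        have b2 : L * (Real.log (t / w.im) + 1) ≤ L * (dist z w + 1) := by gcongr
        rw [abs_sub_comm (u (upt w.re t ht0)) (u w)]
        linarith
    _ ≤ 3 * L * dist z w + 3 * L := by
        have : 0 ≤ L * dist z w := mul_nonneg hL dist_nonneg
        linarith

end Pool.Agent.H8.CFL
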