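import Pool.Agent.H59.CFL.Targets

/-!
# MP_b11560_gt, rows POI, FLX and FLP of the board `cfl_modules`
-/

set_option autoImplicit false

open MeasureTheory Filter Topology Set
open scoped UpperHalfPlane MatrixGroups

namespace Pool.Agent.H8.CFL

open Pool.Agent.H61.SF (IsFlow)
open Pool.Agent.H59.CFL

theorem flow_iter {S : Type} [TopologicalSpace S] {ψ : ℝ → S → S} (hψ : IsFlow ψ) (n : ℕ)
    (x : S) : (ψ 1)^[n] x = ψ n x := by
  induction n generalizing x with
  | zero =>
    rw [Nat.cast_zero, hψ.zero]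
    rfl
  | succ n ih =>
    rw [Function.iterate_succ_apply', ih, Nat.cast_succ, add_comm (n : ℝ) 1, hψ.add]

theorem pf_POI : T_POI := by
  intro S _ _ _ _ ψ hψ μ hμ hinv
  have hmp : MeasurePreserving (ψ 1) μ μ := ⟨(hψ.cont1 1).measurable, hinv 1⟩
  have hcons : Conservative (ψ 1) μ := hmp.conservative
  filter_upwards [hcons.ae_frequently_mem_of_mem_nhds] with x hx U hU N
  obtain ⟨n, hn, hn2⟩ := (frequently_atTop.1 (hx U hU)) ⌈N⌉₊
  refine ⟨n, ?_, ?_⟩
  · exact (Nat.le_ceil N).trans (by exact_mod_cast hn)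
  · rw [← flow_iter hψ]
    exact hn2

theorem cont_int {S : Type} [TopologicalSpace S] [CompactSpace S] [MeasurableSpace S]
    [BorelSpace S] (μ : Measure S) [IsFiniteMeasure μ] {f : S → ℝ} (hf : Continuous f) :
    Integrable f μ := by
  obtain ⟨B, hB⟩ := isCompact_univ.exists_bound_of_continuousOn hf.continuousOn
  exact Integrable.of_bound hf.aestronglyMeasurable B
    (Eventually.of_forall fun x => hB x (mem_univ x))

theorem pf_FLX : T_FLX := by
  intro S _ _ _ _ ψ hψ D G hD hG hco hpos ⟨C, hC⟩ μ hμ hinv hlim W hW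
  have hDc : ∀ t, Continuous (D t) := fun t => hD.comp (Continuous.prodMk_right t)
  have hGc : ∀ t, Continuous (G t) := fun t => hG.comp (Continuous.prodMk_right t)
  have hG0 : ∀ x, G 0 x = 0 := by
    intro x
    have h := hco 0 0 x
    rw [add_zero, hψ.zero] at h
    linarith
  have hGn : ∀ n : ℕ, ∫ x, G n x ∂μ = n * ∫ x, G 1 x ∂μ := by
    intro n
    induction n with
    | zero =>
      rw [Nat.cast_zero, zero_mul]
      simp only [hG0, integral_zero]
    | succ n ih =>
      have h1 : ∀ x, G ((n + 1 : ℕ) : ℝ) x = G n x + G 1 (ψ n x) := by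
        intro x
        rw [Nat.cast_succ, add_comm (n : ℝ) 1]
        exact hco 1 n x
      have h2 : ∫ x, G 1 (ψ n x) ∂μ = ∫ x, G 1 x ∂μ := by
        conv_rhs => rw [← hinv n]
        rw [integral_map (hψ.cont1 n).aemeasurable (hGc 1).aestronglyMeasurable]
      have h3 : Integrable (fun x => G 1 (ψ n x)) μ :=
        cont_int μ ((hGc 1).comp (hψ.cont1 n))
      rw [integral_congr_ae (Eventually.of_forall h1), integral_add (cont_int μ (hGc n)) h3, ih, h2]
      push_cast
      ring
  set a := ∫ x, G 1 x ∂μ with ha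
  have h1 : ∀ n : ℕ, (n : ℝ) * a ≤ C * ∫ x, D n x ∂μ + C := by
    intro n
    rw [← hGn n]
    calc ∫ x, G n x ∂μ ≤ ∫ x, (C * D n x + C) ∂μ := by
          refine integral_mono (cont_int μ (hGc n)) (cont_int μ ?_) (fun x => hC n x)
          exact (continuous_const.mul (hDc n)).add continuous_const
      _ = C * ∫ x, D n x ∂μ + C := by
          have h3 : Integrable (fun x => C * D n x) μ :=
            cont_int μ (continuous_const.mul (hDc n))
          rw [integral_add h3 (integrable_const C), integral_const_mul]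
          simp
  have h2 : Tendsto (fun n : ℕ => C * ((∫ x, D n x ∂μ) / (n : ℝ)) + C / (n : ℝ)) atTop
      (𝓝 (C * 0 + 0)) := by
    refine Tendsto.add (Tendsto.const_mul C (hlim.comp tendsto_natCast_atTop_atTop)) ?_
    exact tendsto_const_div_atTop_nhds_zero_nat C
  rw [mul_zero, add_zero] at h2
  have h3 : a ≤ 0 := by
    refine ge_of_tendsto h2 ?_
    filter_upwards [eventually_gt_atTop 0] with n hn
    have hn' : (0 : ℝ) < n := by exact_mod_cast hn
    have h4 := h1 n
    rw [← mul_div_assoc, ← add_div, le_div_iff₀ hn']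
    linarith
  have h4 : 0 ≤ a := integral_nonneg fun x => hpos 1 zero_le_one x
  have h5 : a = 0 := le_antisymm h3 h4
  have h6 := (integral_eq_zero_iff_of_nonneg (fun x => hpos 1 zero_le_one x)
    (cont_int μ (hGc 1))).1 h5
  have h7 : μ {x | ¬ (G 1 x = 0)} = 0 := by
    rw [← ae_iff]
    exact h6
  refine measure_mono_null ?_ h7
  intro x hx
  exact (hW x hx).ne'

theorem pf_FLP : T_FLP := by
  intro S _ ψ σ δ h
  have habs : ∀ s : ℝ, |-s| = |s| := fun s => abs_neg s
  refine ⟨h.pos, h.cont.comp continuous_neg, ?_, ?_, ?_⟩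
  · intro t s t' s' ht hs ht' hs' he
    obtain ⟨h1, h2⟩ := h.inj t (-s) t' (-s') ht (by rwa [habs]) ht' (by rwa [habs]) he
    exact ⟨h1, neg_injective h2⟩
  · intro U hU hUs
    have h1 : Continuous fun p : ℝ × ℝ => (p.1, -p.2) := by fun_prop
    have h2 := h.isOpen ((fun p : ℝ × ℝ => (p.1, -p.2)) ⁻¹' U) (hU.preimage h1) (by
      intro p hp
      have h3 := hUs _ hp
      simp only [abs_neg] at h3
      exact h3)
    have e : (fun p : ℝ × ℝ => ψ p.1 (σ (-p.2))) '' U =
        (fun p : ℝ × ℝ => ψ p.1 (σ p.2)) '' ((fun p : ℝ × ℝ => (p.1, -p.2)) ⁻¹' U) := by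
      ext y
      constructor
      · rintro ⟨p, hp, rfl⟩
        refine ⟨(p.1, -p.2), ?_, rfl⟩
        show (p.1, -(-p.2)) ∈ U
        rw [neg_neg]
        exact hp
      · rintro ⟨p, hp, rfl⟩
        refine ⟨(p.1, -p.2), hp, ?_⟩
        show ψ p.1 (σ (-(-p.2))) = ψ p.1 (σ p.2)
        rw [neg_neg]
    rw [e]
    exact h2
  · intro T a b ha hb he
    obtain ⟨r, hr, h1⟩ := h.ori T (-a) (-b) (by rwa [habs]) (by rwa [habs]) he
    refine ⟨r, hr, ?_⟩
    intro s θ s' hs hs1 hθ hs' he'
    have h2 := h1 (-s) θ (-s') (by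
      rw [show -s - -a = -(s - a) by ring, abs_neg]
      exact hs) (by rwa [habs]) hθ (by rwa [habs]) he'
    constructor
    · intro h3
      have := h2.2 (by linarith)
      linarith
    · intro h3
      have := h2.1 (by linarith)
      linarith

end Pool.Agent.H8.CFL
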